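import Mathlib

set_option autoImplicit false

namespace Pool.Agent.Results.MP_2d49c6_co.RegularPrime

open Finset Classical

/-- the degree of `v` in `G` -/
noncomputable def dg {V : Type} [Fintype V] (G : SimpleGraph V) (v : V) : ℕ :=
  (univ.filter fun w => G.Adj v w).card

/-- `e(v, V_i)`: the number of neighbours of `v` in the class `c⁻¹(i)` -/
noncomputable def nb {V : Type} [Fintype V] (G : SimpleGraph V) {m : ℕ} (c : V → Fin m) (v : V)
    (i : Fin m) : ℕ :=
  (univ.filter fun w => G.Adj v w ∧ c w = i).card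

/-- `c` is a FAT `m`-colouring of `G` with parameter `α`, where `β = 1 - (m - 1) α` -/
def IsFAT {V : Type} [Fintype V] (G : SimpleGraph V) (m : ℕ) (α : ℝ) (c : V → Fin m) : Prop :=
  0 ≤ α ∧ α ≤ 1 ∧ Function.Surjective c ∧
    ∀ v i, (i ≠ c v → (nb G c v i : ℝ) = α * dg G v) ∧
      (i = c v → (nb G c v i : ℝ) = (1 - ((m : ℝ) - 1) * α) * dg G v)

theorem dg_eq_sum {V : Type} [Fintype V] (G : SimpleGraph V) {m : ℕ} (c : V → Fin m) (v : V) :
    dg G v = ∑ i, nb G c v i := by
  unfold dg nb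
  rw [Finset.card_eq_sum_card_fiberwise (f := c) (t := univ) (fun _ _ => by simp)]
  refine Finset.sum_congr rfl fun i _ => ?_
  rw [Finset.filter_filter]

theorem double_count {V : Type} [Fintype V] (G : SimpleGraph V) {m : ℕ} (c : V → Fin m)
    (i j : Fin m) :
    ∑ v ∈ univ.filter (fun v => c v = i), nb G c v j =
      ∑ w ∈ univ.filter (fun w => c w = j), nb G c w i := by
  unfold nb
  simp only [Finset.card_filter, Finset.sum_filter]
  have h1 : ∀ v : V, (if c v = i then (∑ w : V, if G.Adj v w ∧ c w = j then 1 else 0) else 0) =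
      ∑ w : V, if c v = i ∧ G.Adj v w ∧ c w = j then 1 else 0 := by
    intro v
    by_cases h : c v = i
    · simp [h]
    · simp [h]
  have h2 : ∀ w : V, (if c w = j then (∑ v : V, if G.Adj w v ∧ c v = i then 1 else 0) else 0) =
      ∑ v : V, if c v = i ∧ G.Adj v w ∧ c w = j then 1 else 0 := by
    intro w
    by_cases h : c w = j
    · simp only [h, if_true, and_true]
      refine Finset.sum_congr rfl fun v _ => ?_
      refine if_congr ?_ rfl rfl
      rw [G.adj_comm w v, and_comm]
    · simp [h]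
  rw [Finset.sum_congr rfl fun v _ => h1 v, Finset.sum_congr rfl fun w _ => h2 w,
    Finset.sum_comm]

/-- in a connected graph with more than one class the parameter is positive -/
theorem param_pos {V : Type} [Fintype V] (G : SimpleGraph V) (hG : G.Connected) {m : ℕ}
    (hm : 2 ≤ m) {α : ℝ} {c : V → Fin m} (h : IsFAT G m α c) : 0 < α := by
  obtain ⟨h0, _, hs, hc⟩ := h
  rcases h0.lt_or_eq with h0 | h0
  · exact h0
  exfalso
  have hadj : ∀ v w, G.Adj v w → c v = c w := by
    intro v w hvw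
    by_contra hne
    have h1 := (hc v (c w)).1 (fun h => hne h.symm)
    rw [← h0, zero_mul] at h1
    have h2 : nb G c v (c w) = 0 := by exact_mod_cast h1
    unfold nb at h2
    rw [Finset.card_eq_zero, Finset.filter_eq_empty_iff] at h2
    exact h2 (mem_univ w) ⟨hvw, rfl⟩
  have hall : ∀ v w, c v = c w := by
    intro v w
    obtain ⟨p⟩ := hG.preconnected v w
    induction p with
    | nil => rfl
    | cons h _ ih => exact (hadj _ _ h).trans ih
  obtain ⟨v, hv⟩ := hs ⟨0, by omega⟩
  obtain ⟨w, hw⟩ := hs ⟨1, by omega⟩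
  have := hall v w
  rw [hv, hw] at this
  simp at this

/-- in a regular connected graph the classes have equal size and `m ≤ D + 1` -/
theorem regular_bound {V : Type} [Fintype V] (G : SimpleGraph V) (hG : G.Connected) {D : ℕ}
    (hD : 0 < D) (hreg : ∀ v, dg G v = D) {m : ℕ} (hm : 2 ≤ m) {α : ℝ} {c : V → Fin m}
    (h : IsFAT G m α c) : m ∣ Fintype.card V ∧ m ≤ D + 1 := by
  have hpos := param_pos G hG hm h
  obtain ⟨h0, _, hs, hc⟩ := h
  have hDR : (0 : ℝ) < D := by exact_mod_cast hD
  constructor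
  · have hcl : ∀ i j : Fin m, (univ.filter fun v => c v = i).card =
        (univ.filter fun v => c v = j).card := by
      intro i j
      by_cases hij : i = j
      · rw [hij]
      have h1 := double_count G c i j
      have h2 : ((∑ v ∈ univ.filter (fun v => c v = i), nb G c v j : ℕ) : ℝ) =
          (univ.filter fun v => c v = i).card * (α * D) := by
        rw [Nat.cast_sum, Finset.sum_congr rfl (g := fun _ => α * (D : ℝ)), Finset.sum_const,
          nsmul_eq_mul]
        intro v hv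
        rw [Finset.mem_filter] at hv
        have := (hc v j).1 (by rw [hv.2]; exact fun h => hij h.symm)
        rw [this, hreg]
      have h3 : ((∑ v ∈ univ.filter (fun v => c v = j), nb G c v i : ℕ) : ℝ) =
          (univ.filter fun v => c v = j).card * (α * D) := by
        rw [Nat.cast_sum, Finset.sum_congr rfl (g := fun _ => α * (D : ℝ)), Finset.sum_const,
          nsmul_eq_mul]
        intro v hv
        rw [Finset.mem_filter] at hv
        have := (hc v i).1 (by rw [hv.2]; exact hij)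
        rw [this, hreg]
      rw [h1, h3] at h2
      have h4 := mul_right_cancel₀ (mul_pos hpos hDR).ne' h2
      exact_mod_cast h4.symm
    have hsum : Fintype.card V = ∑ i : Fin m, (univ.filter fun v => c v = i).card := by
      rw [← Finset.card_univ]
      exact Finset.card_eq_sum_card_fiberwise (fun _ _ => by simp)
    rw [hsum, Finset.sum_congr rfl (fun i _ => hcl i ⟨0, by omega⟩), Finset.sum_const,
      Finset.card_univ, Fintype.card_fin, smul_eq_mul]
    exact dvd_mul_right _ _
  · obtain ⟨v, -⟩ := hs ⟨0, by omega⟩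
    have h1 := dg_eq_sum G c v
    rw [hreg] at h1
    have h2 : ∀ i, i ≠ c v → 1 ≤ nb G c v i := by
      intro i hi
      have h3 := (hc v i).1 hi
      have h4 : (0 : ℝ) < nb G c v i := by
        rw [h3, hreg]
        exact mul_pos hpos hDR
      exact_mod_cast h4
    have h3 : ∑ i ∈ univ.erase (c v), 1 ≤ ∑ i ∈ univ.erase (c v), nb G c v i :=
      Finset.sum_le_sum fun i hi => h2 i (Finset.ne_of_mem_erase hi)
    have h4 := Finset.add_sum_erase univ (nb G c v) (mem_univ (c v))
    rw [Finset.sum_const, Finset.card_erase_of_mem (mem_univ _), Finset.card_univ,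
      Fintype.card_fin, smul_eq_mul, mul_one] at h3
    omega

/-- the symmetric set `{±1, …, ±n}` -/
def InS (P n : ℕ) (z : ZMod P) : Prop := ∃ j : ℕ, 1 ≤ j ∧ j ≤ n ∧ (z = j ∨ z = -(j : ZMod P))

theorem cast_inj {P a b : ℕ} (ha : a < P) (hb : b < P) (h : (a : ZMod P) = b) : a = b := by
  rw [ZMod.natCast_eq_natCast_iff'] at h
  rwa [Nat.mod_eq_of_lt ha, Nat.mod_eq_of_lt hb] at h

theorem InS_zero {P n : ℕ} (hP : n < P) : ¬ InS P n 0 := by
  rintro ⟨j, h1, h2, h3⟩
  have h4 : ((j : ℕ) : ZMod P) = ((0 : ℕ) : ZMod P) := by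
    rcases h3 with h3 | h3
    · rw [← h3]; simp
    · rw [eq_comm, neg_eq_zero] at h3
      rw [h3]; simp
  have := cast_inj (by omega) (by omega) h4
  omega

theorem InS_neg {P n : ℕ} {z : ZMod P} (h : InS P n z) : InS P n (-z) := by
  obtain ⟨j, h1, h2, h3⟩ := h
  refine ⟨j, h1, h2, ?_⟩
  rcases h3 with h3 | h3
  · exact Or.inr (by rw [h3])
  · exact Or.inl (by rw [h3, neg_neg])

theorem card_InS {P n : ℕ} [NeZero P] (hP : 2 * n < P) :
    (univ.filter fun z : ZMod P => InS P n z).card = 2 * n := by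
  have h1 : (univ.filter fun z : ZMod P => InS P n z) =
      (Finset.Icc 1 n).image (fun j : ℕ => (j : ZMod P)) ∪
        (Finset.Icc 1 n).image (fun j : ℕ => -(j : ZMod P)) := by
    ext z
    rw [mem_filter, mem_union, mem_image, mem_image]
    simp only [mem_univ, true_and, mem_Icc]
    unfold InS
    constructor
    · rintro ⟨j, h1, h2, h3 | h3⟩
      · exact Or.inl ⟨j, ⟨h1, h2⟩, h3.symm⟩
      · exact Or.inr ⟨j, ⟨h1, h2⟩, h3.symm⟩
    · rintro (⟨j, ⟨h1, h2⟩, h3⟩ | ⟨j, ⟨h1, h2⟩, h3⟩)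
      · exact ⟨j, h1, h2, Or.inl h3.symm⟩
      · exact ⟨j, h1, h2, Or.inr h3.symm⟩
  have h2 : Disjoint ((Finset.Icc 1 n).image (fun j : ℕ => (j : ZMod P)))
      ((Finset.Icc 1 n).image (fun j : ℕ => -(j : ZMod P))) := by
    rw [Finset.disjoint_left]
    intro z hz hz'
    rw [mem_image] at hz hz'
    obtain ⟨a, ha, rfl⟩ := hz
    obtain ⟨b, hb, hab⟩ := hz'
    rw [mem_Icc] at ha hb
    have h3 : (((a + b : ℕ)) : ZMod P) = ((0 : ℕ) : ZMod P) := by
      push_cast
      rw [← hab]; ring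
    have := cast_inj (by omega) (by omega) h3
    omega
  rw [h1, Finset.card_union_of_disjoint h2, Finset.card_image_of_injOn, Finset.card_image_of_injOn,
    Nat.card_Icc]
  · omega
  · intro a ha b hb hab
    simp only [coe_Icc, Set.mem_Icc] at ha hb
    exact cast_inj (P := P) (by omega) (by omega) (neg_injective hab)
  · intro a ha b hb hab
    simp only [coe_Icc, Set.mem_Icc] at ha hb
    exact cast_inj (P := P) (by omega) (by omega) hab

/-- the graph on `Fin k × ZMod P`: `(a, x)` and `(b, y)` are adjacent when `y - x` is in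
`{±1, …, ±p}` (if `a ≠ b`), respectively in `{±1, …, ±r}` (if `a = b`) -/
def gr (k P p r : ℕ) (hr : r < P) : SimpleGraph (Fin k × ZMod P) where
  Adj u w := (u.1 ≠ w.1 ∧ InS P p (w.2 - u.2)) ∨ (u.1 = w.1 ∧ InS P r (w.2 - u.2))
  symm := ⟨by
    rintro u w (⟨h1, h2⟩ | ⟨h1, h2⟩)
    · exact Or.inl ⟨h1.symm, by simpa using InS_neg h2⟩
    · exact Or.inr ⟨h1.symm, by simpa using InS_neg h2⟩⟩
  loopless := ⟨by
    rintro u (⟨h1, h2⟩ | ⟨h1, h2⟩)
    · exact h1 rfl
    · rw [sub_self] at h2
      exact InS_zero hr h2⟩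

theorem nb_gr {k P p r : ℕ} [NeZero P] (hr : r < P) (h2p : 2 * p < P) (h2r : 2 * r < P)
    (v : Fin k × ZMod P) (i : Fin k) :
    nb (gr k P p r hr) Prod.fst v i = if i = v.1 then 2 * r else 2 * p := by
  have key : ∀ n : ℕ, 2 * n < P →
      ((univ.filter fun z : ZMod P => InS P n z).image (fun z => (i, v.2 + z))).card = 2 * n := by
    intro n hn
    rw [Finset.card_image_of_injective, card_InS hn]
    intro a b hab
    simpa using hab
  unfold nb
  by_cases h : i = v.1
  · rw [if_pos h, ← key r h2r]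
    congr 1
    ext ⟨b, y⟩
    rw [mem_filter, mem_image]
    simp only [mem_univ, true_and, mem_filter, Prod.mk.injEq]
    constructor
    · rintro ⟨h1, h2⟩
      refine ⟨y - v.2, ?_, h2.symm, by ring⟩
      rcases h1 with ⟨h1, h3⟩ | ⟨h1, h3⟩
      · exact absurd (h.symm.trans h2.symm) h1
      · exact h3
    · rintro ⟨z, h1, h2, h3⟩
      refine ⟨Or.inr ⟨by rw [← h2, h], ?_⟩, h2.symm⟩
      rw [← h3]
      simpa using h1
  · rw [if_neg h, ← key p h2p]
    congr 1
    ext ⟨b, y⟩
    rw [mem_filter, mem_image]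
    simp only [mem_univ, true_and, mem_filter, Prod.mk.injEq]
    constructor
    · rintro ⟨h1, h2⟩
      refine ⟨y - v.2, ?_, h2.symm, by ring⟩
      rcases h1 with ⟨h1, h3⟩ | ⟨h1, h3⟩
      · exact h3
      · exact absurd (h2.symm.trans h1.symm) h
    · rintro ⟨z, h1, h2, h3⟩
      refine ⟨Or.inl ⟨by rw [← h2]; exact fun e => h e.symm, ?_⟩, h2.symm⟩
      rw [← h3]
      simpa using h1

theorem dg_gr {k P p r : ℕ} [NeZero P] (hr : r < P) (h2p : 2 * p < P) (h2r : 2 * r < P)
    (v : Fin k × ZMod P) : dg (gr k P p r hr) v = 2 * r + (k - 1) * (2 * p) := by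
  rw [dg_eq_sum _ Prod.fst, ← Finset.add_sum_erase univ _ (mem_univ v.1)]
  rw [nb_gr hr h2p h2r, if_pos rfl, Finset.sum_congr rfl (g := fun _ => 2 * p)]
  · rw [Finset.sum_const, Finset.card_erase_of_mem (mem_univ _), Finset.card_univ,
      Fintype.card_fin, smul_eq_mul]
  · intro i hi
    rw [nb_gr hr h2p h2r, if_neg (Finset.ne_of_mem_erase hi)]

theorem conn_gr {k P p r : ℕ} [NeZero P] (hr : r < P) (hk : 2 ≤ k) (hp : 1 ≤ p)
    (hP : P.Coprime 2) : (gr k P p r hr).Connected := by
  have hone : InS P p 1 := ⟨1, le_refl _, hp, Or.inl (by simp)⟩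
  have hadj : ∀ a b : Fin k, a ≠ b → ∀ x, (gr k P p r hr).Adj (a, x) (b, x + 1) := by
    intro a b hab x
    exact Or.inl ⟨hab, by simpa using hone⟩
  have hother : ∀ a : Fin k, ∃ b, b ≠ a := by
    intro a
    by_cases h : a = ⟨0, by omega⟩
    · exact ⟨⟨1, by omega⟩, by rw [h]; simp⟩
    · exact ⟨_, fun e => h e.symm⟩
  have htwo : ∀ (a : Fin k) (x : ZMod P) (n : ℕ),
      (gr k P p r hr).Reachable (a, x) (a, x + 2 * n) := by
    intro a x n
    induction n with
    | zero => simp
    | succ n ih =>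
      obtain ⟨b, hb⟩ := hother a
      refine ih.trans ?_
      have h1 := hadj a b hb.symm (x + 2 * n)
      have h2 := hadj b a hb (x + 2 * n + 1)
      have h3 : x + 2 * n + 1 + 1 = x + 2 * ((n + 1 : ℕ) : ZMod P) := by
        push_cast; ring
      rw [h3] at h2
      exact h1.reachable.trans h2.reachable
  have hunit : ∀ z : ZMod P, ∃ n : ℕ, z = 2 * n := by
    intro z
    have hu : IsUnit (2 : ZMod P) := by
      have := (ZMod.isUnit_iff_coprime 2 P).2 hP.symm
      simpa using this
    obtain ⟨u, hu⟩ := hu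
    refine ⟨(((u⁻¹ : (ZMod P)ˣ) : ZMod P) * z).val, ?_⟩
    rw [ZMod.natCast_zmod_val, ← hu, ← mul_assoc, Units.mul_inv, one_mul]
  have hsame : ∀ (a : Fin k) (x y : ZMod P), (gr k P p r hr).Reachable (a, x) (a, y) := by
    intro a x y
    obtain ⟨n, hn⟩ := hunit (y - x)
    have := htwo a x n
    rwa [← hn, add_sub_cancel] at this
  have : Nonempty (Fin k × ZMod P) := ⟨(⟨0, by omega⟩, 0)⟩
  refine ⟨fun u w => ?_⟩
  obtain ⟨a, x⟩ := u
  obtain ⟨b, y⟩ := w
  by_cases hab : a = b
  · rw [hab]; exact hsame b x y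
  · refine (hsame a x (y - 1)).trans ?_
    have := hadj a b hab (y - 1)
    rw [sub_add_cancel] at this
    exact this.reachable

/-- For every `k ≥ 2` and every rational `α` with `0 < α ≤ 1 / (k - 1)` there is a connected graph
that has a FAT `k`-colouring with parameter `α` and whose FAT chromatic number is exactly `k`. -/
theorem result (k : ℕ) (hk : 2 ≤ k) (α : ℚ) (h0 : 0 < α) (h1 : α ≤ 1 / ((k : ℚ) - 1)) :
    ∃ (V : Type) (_ : Fintype V) (G : SimpleGraph V), G.Connected ∧
      (∃ c : V → Fin k, IsFAT G k (α : ℝ) c) ∧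
      IsGreatest {m : ℕ | ∃ (α' : ℝ) (c : V → Fin m), IsFAT G m α' c} k := by
  have hk1 : (0 : ℚ) < (k : ℚ) - 1 := by
    have : (2 : ℚ) ≤ k := by exact_mod_cast hk
    linarith
  obtain ⟨p, hp⟩ : ∃ p : ℕ, (p : ℤ) = α.num := ⟨α.num.toNat, Int.toNat_of_nonneg
    (le_of_lt (Rat.num_pos.2 h0))⟩
  have hp1 : 1 ≤ p := by
    have := Rat.num_pos.2 h0
    omega
  have hq0 : 0 < α.den := α.den_pos
  have hα : α = (p : ℚ) / α.den := by
    conv_lhs => rw [← Rat.num_div_den α, ← hp]
    simp
  have hqQ : (0 : ℚ) < α.den := by exact_mod_cast hq0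
  have hle : (k - 1) * p ≤ α.den := by
    rw [hα, div_le_div_iff₀ hqQ hk1, one_mul] at h1
    have h2 : (((k - 1) * p : ℕ) : ℚ) ≤ (α.den : ℚ) := by
      rw [Nat.cast_mul, Nat.cast_sub (by omega : 1 ≤ k)]
      push_cast
      linarith
    exact_mod_cast h2
  set q : ℕ := α.den with hqdef
  obtain ⟨r, hr⟩ : ∃ r, (k - 1) * p + r = q := ⟨q - (k - 1) * p, by omega⟩
  obtain ⟨P, hPge, hPp⟩ := Nat.exists_infinite_primes (2 * q + 2)
  have : NeZero P := ⟨hPp.ne_zero⟩
  have hpq : p ≤ q := by
    have : 1 * p ≤ (k - 1) * p := Nat.mul_le_mul_right _ (by omega)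
    omega
  have hrP : r < P := by omega
  have h2p : 2 * p < P := by omega
  have h2r : 2 * r < P := by omega
  have hdeg : ∀ v, dg (gr k P p r hrP) v = 2 * q := by
    intro v
    rw [dg_gr hrP h2p h2r, ← hr]
    ring
  have hodd : P.Coprime 2 := by
    rw [Nat.coprime_primes hPp Nat.prime_two]
    omega
  have hconn := conn_gr hrP hk hp1 hodd
  have hqR : (0 : ℝ) < (q : ℝ) := by exact_mod_cast hq0
  have hαR : (α : ℝ) = (p : ℝ) / (q : ℝ) := by
    rw [hα]; push_cast; rfl
  have hrR : (r : ℝ) = q - ((k : ℝ) - 1) * p := by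
    have : (((k - 1) * p + r : ℕ) : ℝ) = (q : ℝ) := by rw [hr]
    rw [Nat.cast_add, Nat.cast_mul, Nat.cast_sub (by omega : 1 ≤ k)] at this
    push_cast at this
    linarith
  have hfat : IsFAT (gr k P p r hrP) k (α : ℝ) Prod.fst := by
    refine ⟨by rw [hαR]; positivity, ?_, fun i => ⟨(i, 0), rfl⟩, ?_⟩
    · rw [hαR, div_le_one hqR]
      exact_mod_cast hpq
    · intro v i
      rw [nb_gr hrP h2p h2r, hdeg]
      constructor
      · intro h
        rw [if_neg h, hαR]
        push_cast
        field_simp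
      · intro h
        rw [if_pos h, hαR]
        push_cast
        rw [hrR]
        field_simp
  refine ⟨Fin k × ZMod P, inferInstance, gr k P p r hrP, hconn, ⟨Prod.fst, hfat⟩,
    ⟨α, Prod.fst, hfat⟩, ?_⟩
  rintro m ⟨α', c, hc⟩
  by_cases hm : m < 2
  · omega
  obtain ⟨hdvd, hle2⟩ := regular_bound _ hconn (by omega : 0 < 2 * q) hdeg (by omega) hc
  rw [Fintype.card_prod, Fintype.card_fin, ZMod.card] at hdvd
  have hcop : m.Coprime P := by
    rw [Nat.coprime_comm, Nat.Prime.coprime_iff_not_dvd hPp]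
    intro h
    have := Nat.le_of_dvd (by omega) h
    omega
  exact Nat.le_of_dvd (by omega) (hcop.dvd_of_dvd_mul_right hdvd)

end Pool.Agent.Results.MP_2d49c6_co.RegularPrime
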